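import Pool.Agent.Lib.NilDescent.Relative
import Mathlib.Algebra.Module.LinearMap.End
import Mathlib.Tactic

set_option autoImplicit false

/-!
# Autoequivalences of K3 surfaces of Picard number one: unipotence

`Y` is a very general K3 surface of degree `2 m` and `X` a K3 surface of degree `2 m N ^ 2` whose
transcendental lattice is a sublattice of that of `Y`.
-/

namespace Pool.Agent.Lib.MP_240120_uni

open Pool.Agent.Lib.NilDescent

/-- The data for a very general complex K3 surface `X` with `NS(X) = ℤ h`, `h ^ 2 = 2 n`, `n = m N ^ 2`,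
`m ∈ {1, 2, 3, 5, 6, 7, 11}` (or `m ∈ {10, 15, 17, 19}`, see `franchetta`), `N ≥ 1`.

`K` is the field of rational functions of a parameter space of the K3 surfaces of degree `2 m` (over the
algebraic numbers), `Y` the universal one over `K`, of genus `m + 1`. Very general
means that `K` embeds in `ℂ` such that `T(X) ⊂ T(Y)` is a sublattice of index `N`: `T(X)` has the
discriminant group `ℤ / 2 m N ^ 2` and a unique overlattice of index `N`, which is `T(Y)` for a K3 surface
`Y` of degree `2 m`. So `X` is defined over the algebraic closure of `K`.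

* `G`: the Galois group of `K`;
* `S`: the ring `CH²(Y × Y)_ℚ` of self-correspondences of degree zero over the algebraic closure of `K`;
* `H`: the Mukai lattice of `X`; `TY`, `TX`: the groups `T(Y)_ℚ`, `T(X)_ℚ`;
* `CY`, `CX`: the groups `CH_0(Y)_hom`, `CH_0(X)_hom` (over `ℂ`);
* `D`: the group of derived autoequivalences and anti-autoequivalences of `X`. -/
structure Isogenous (G S H TY TX CY CX D : Type*) [Group G] [Ring S] [MulSemiringAction G S]
    [AddCommGroup H] [AddCommGroup TY] [AddCommGroup TX] [AddCommGroup CY] [AddCommGroup CX]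
    [Group D] where
  /-- a correspondence is defined over a finite extension of `K` -/
  orbit : ∀ s : S, (MulAction.orbit G s).Finite
  /-- the action of the self-correspondences of `Y` on `T(Y)_ℚ` -/
  onT : S →+* AddMonoid.End TY
  /-- the action of the self-correspondences of `Y` on `CH_0(Y)_hom` -/
  onCH : S →+* AddMonoid.End CY
  /-- conjugate correspondences vanish at the same time on the transcendental lattice ... -/
  galT : ∀ (σ : G) (s : S), onT s = 0 → onT (σ • s) = 0
  /-- ... and on zero-cycles -/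
  galCH : ∀ (σ : G) (s : S), onCH s = 0 → onCH (σ • s) = 0
  /-- Products of `n` self-correspondences of `Y` over `K` which are zero on `T(Y)` are zero on
  `CH_0(Y)_hom`, for some `n`. In genus `2`, `3`, `4`, `6`, `7`, `8`, `12` (`m = 1, 2, 3, 5, 6, 7, 11`) one has
  `n = 1`, by the Franchetta property of `Y × Y` (Fu, Laterveer, Vial): such a correspondence is homologous,
  hence rationally equivalent, to a combination of `h × h`, `o × Y` and `Y × o`. (In genus `11`, `16`, `18`,
  `20` the fibre square of the universal family is rationally connected, and the products of `n`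
  homologically trivial correspondences over `K` are zero, see `FibreSquares` in `MP_f4876d_ag`.) -/
  franchetta : ∃ n : ℕ, ∀ l : List S, l.length = n →
    (∀ s ∈ l, (∀ σ : G, σ • s = s) ∧ onT s = 0) → onCH l.prod = 0
  /-- `-1` for the anti-autoequivalences -/
  sgn : D →* ℤˣ
  /-- the action of the (anti-)autoequivalences on the Mukai lattice -/
  mukai : D →* AddMonoid.End H
  /-- the action of the (anti-)autoequivalences on `T(X)_ℚ` -/
  act : D →* AddMonoid.End TX
  /-- the action of the (anti-)autoequivalences on `CH_0(X)_hom` -/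
  ch : D →* AddMonoid.End CX
  /-- The equality `T(X)_ℚ = T(Y)_ℚ` ... -/
  isoT : TX ≃+ TY
  /-- ... is induced by a correspondence which identifies the groups of zero-cycles (Huybrechts, Motives
  of isogenous K3 surfaces). -/
  isoCH : CX ≃+ CY
  /-- the Galois group of a finite Galois extension of `K` over which `X`, `h` and this correspondence and
  its inverse are defined -/
  N : Subgroup G
  /-- it is normal -/
  normal : N.Normal
  /-- and of finite index -/
  finite : Finite (G ⧸ N)
  /-- the kernel of `Φ` (for an anti-autoequivalence: of its composition with the duality, which is `-1`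
  on `T(X)` and `1` on `CH_0(X)_hom`), composed with the correspondence between `X` and `Y` and its
  inverse; kernels are rigid, so they are defined over the algebraic closure of `K` -/
  cor : D → S
  /-- its action on `CH_0(Y)_hom` -/
  cor_ch : ∀ Φ z, onCH (cor Φ) (isoCH z) = isoCH (ch Φ z)
  /-- its action on `T(Y)_ℚ` -/
  cor_act : ∀ Φ t, onT (cor Φ) (isoT t) = ((sgn Φ : ℤˣ) : ℤ) • isoT (act Φ t)
  /-- A conjugate of the kernel over that extension is the kernel of an (anti-)autoequivalence with the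
  same action on the Mukai lattice (as `Φ` acts on `T(X)` as `1` or `-1` and `NS(X) = ℤ h`). -/
  conj : ∀ Φ, ∀ σ ∈ N, ∃ Ψ, sgn Ψ = sgn Φ ∧ mukai Ψ = mukai Φ ∧ act Ψ = act Φ ∧
    cor Ψ = σ • cor Φ
  /-- The action on the Mukai lattice determines the action on zero-cycles (Huybrechts, Macri, Stellari).
  -/
  unique : ∀ Φ Ψ, sgn Ψ = sgn Φ → mukai Ψ = mukai Φ → ch Ψ = ch Φ
  /-- `CH_0(X)_hom` is torsion free (Roitman) -/
  torsion : ∀ (j : ℤ) (z : CX), j ≠ 0 → j • z = 0 → z = 0

section Fixed

variable {G S : Type*} [Group G] [Ring S] [MulSemiringAction G S]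

/-- the elements fixed by a subgroup -/
def fixed (N : Subgroup G) : Subring S where
  carrier := {s | ∀ σ ∈ N, σ • s = s}
  mul_mem' := fun {a b} ha hb σ hσ => by rw [smul_mul', ha σ hσ, hb σ hσ]
  one_mem' := fun σ _ => smul_one σ
  add_mem' := fun {a b} ha hb σ hσ => by rw [smul_add, ha σ hσ, hb σ hσ]
  zero_mem' := fun σ _ => smul_zero σ
  neg_mem' := fun {a} ha σ hσ => by rw [smul_neg, ha σ hσ]

theorem smul_mem_fixed {N : Subgroup G} (hN : N.Normal) (σ : G) {s : S} (hs : s ∈ fixed (S := S) N) :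
    σ • s ∈ fixed (S := S) N := by
  intro τ hτ
  have h1 : σ⁻¹ * τ * σ ∈ N := by
    have := hN.conj_mem τ hτ σ⁻¹
    rwa [inv_inv] at this
  have h2 : τ • (σ • s) = σ • ((σ⁻¹ * τ * σ) • s) := by
    rw [smul_smul, smul_smul]
    congr 1
    group
  rw [h2, hs _ h1]

/-- the quotient acts on the fixed elements -/
@[reducible] def quotFixed (N : Subgroup G) [hN : N.Normal] : MulSemiringAction (G ⧸ N) (fixed (S := S) N) where
  smul q s := Quotient.liftOn' q (fun σ => ⟨σ • s.1, smul_mem_fixed hN σ s.2⟩) (by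
    intro a b hab
    have h1 : a⁻¹ * b ∈ N := QuotientGroup.leftRel_apply.1 hab
    apply Subtype.ext
    change a • s.1 = b • s.1
    have h2 := s.2 _ h1
    calc a • s.1 = a • ((a⁻¹ * b) • s.1) := by rw [h2]
      _ = b • s.1 := by rw [smul_smul]; congr 1; group)
  one_smul s := Subtype.ext (one_smul G s.1)
  mul_smul a b s := by
    induction a using QuotientGroup.induction_on with | H a =>
    induction b using QuotientGroup.induction_on with | H b =>
    exact Subtype.ext (mul_smul a b s.1)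
  smul_zero a := by
    induction a using QuotientGroup.induction_on with | H a =>
    exact Subtype.ext (smul_zero a)
  smul_add a s t := by
    induction a using QuotientGroup.induction_on with | H a =>
    exact Subtype.ext (smul_add a s.1 t.1)
  smul_one a := by
    induction a using QuotientGroup.induction_on with | H a =>
    exact Subtype.ext (smul_one a)
  smul_mul a s t := by
    induction a using QuotientGroup.induction_on with | H a =>
    exact Subtype.ext (smul_mul' a s.1 t.1)

/-- the mean of correspondences which agree at `w` agrees with them -/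
theorem mean_apply [Algebra ℚ S] {A : Type*} [AddCommGroup A] (f : S →+* AddMonoid.End A)
    (O : Finset S) (hne : O.Nonempty) (w v : A) (h : ∀ s ∈ O, f s w = v) :
    f ((O.card : ℚ)⁻¹ • ∑ s ∈ O, s) w = v := by
  have hc : (O.card : ℚ) ≠ 0 := by exact_mod_cast hne.card_pos.ne'
  have h3 : (((O.card : ℚ)⁻¹ • (1 : S)) * (O.card : S)) = 1 := by
    have e : (O.card : S) = (O.card : ℚ) • (1 : S) := by
      rw [Nat.cast_smul_eq_nsmul ℚ, nsmul_one]
    rw [e, smul_mul_smul_comm, inv_mul_cancel₀ hc, one_mul, one_smul]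
  have h4 : (O.card : ℚ)⁻¹ • ∑ s ∈ O, s = ((O.card : ℚ)⁻¹ • (1 : S)) * ∑ s ∈ O, s := by
    rw [smul_mul_assoc, one_mul]
  have h5 : f (∑ s ∈ O, s) w = O.card • v := by
    have h6 : ∀ T : Finset S, (∀ s ∈ T, f s w = v) → f (∑ s ∈ T, s) w = T.card • v := by
      classical
      intro T
      induction T using Finset.induction_on with
      | empty =>
        intro _
        rw [Finset.sum_empty, map_zero, Finset.card_empty, zero_nsmul]
        rfl
      | insert a T ha ih =>
        intro hT
        rw [Finset.sum_insert ha, map_add, Finset.card_insert_of_notMem ha, add_nsmul, one_nsmul]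
        change f a w + f (∑ s ∈ T, s) w = _
        rw [hT a (Finset.mem_insert_self a T), ih (fun s hs => hT s (Finset.mem_insert_of_mem hs)),
          add_comm]
    exact h6 O h
  have h7 : f (O.card : S) v = O.card • v := by
    rw [map_natCast]
    rfl
  rw [h4, map_mul]
  change f ((O.card : ℚ)⁻¹ • (1 : S)) (f (∑ s ∈ O, s) w) = v
  rw [h5, ← h7]
  change (f ((O.card : ℚ)⁻¹ • (1 : S)) * f (O.card : S)) v = v
  rw [← map_mul, h3, map_one]
  rfl

end Fixed

namespace Isogenous

variable {G S H TY TX CY CX D : Type*} [Group G] [Ring S] [MulSemiringAction G S]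
    [AddCommGroup H] [AddCommGroup TY] [AddCommGroup TX] [AddCommGroup CY] [AddCommGroup CX]
    [Group D]

/-- `Φ` acts on the transcendental lattice as `ε = ±1` -/
def Acts (X : Isogenous G S H TY TX CY CX D) (Φ : D) (ε : ℤˣ) : Prop :=
  ∀ t, X.act Φ t = (ε : ℤ) • t

/-- the deviation of the action of `Φ` on `CH_0(X)_hom` from the predicted one -/
def dev (X : Isogenous G S H TY TX CY CX D) (p : D × ℤˣ) : AddMonoid.End CX :=
  (((X.sgn p.1 * p.2 : ℤˣ) : ℤ)) • X.ch p.1 - 1

theorem dev_apply (X : Isogenous G S H TY TX CY CX D) (p : D × ℤˣ) (z : CX) :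
    X.dev p z = ((X.sgn p.1 * p.2 : ℤˣ) : ℤ) • X.ch p.1 z - z := rfl

/-- `s` represents `Φ` -/
def Rep (X : Isogenous G S H TY TX CY CX D) (Φ : D) (s : S) : Prop :=
  (∀ z, X.onCH s (X.isoCH z) = X.isoCH (X.ch Φ z)) ∧
    ∀ t, X.onT s (X.isoT t) = ((X.sgn Φ : ℤˣ) : ℤ) • X.isoT (X.act Φ t)

/-- every `Φ` is represented by a correspondence which is fixed by `N`: the mean of the conjugates of
its kernel -/
theorem exists_rep [Algebra ℚ S] (X : Isogenous G S H TY TX CY CX D) (Φ : D) :
    ∃ s : S, (∀ σ ∈ X.N, σ • s = s) ∧ X.Rep Φ s := by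
  classical
  -- all conjugates represent `Φ`
  have h1 : ∀ σ ∈ X.N, X.Rep Φ (σ • X.cor Φ) := by
    intro σ hσ
    obtain ⟨Ψ, h1, h2, h3, h4⟩ := X.conj Φ σ hσ
    rw [← h4]
    refine ⟨fun z => ?_, fun t => ?_⟩
    · rw [X.cor_ch, X.unique Φ Ψ h1 h2]
    · rw [X.cor_act, h1, h3]
  -- the finite set of conjugates
  have hfin : {s | ∃ σ ∈ X.N, s = σ • X.cor Φ}.Finite :=
    (X.orbit (X.cor Φ)).subset (by
      rintro _ ⟨σ, _, rfl⟩
      exact ⟨σ, rfl⟩)
  obtain ⟨O, hO⟩ : ∃ O : Finset S, ∀ s, s ∈ O ↔ ∃ σ ∈ X.N, s = σ • X.cor Φ :=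
    ⟨hfin.toFinset, fun s => hfin.mem_toFinset⟩
  have hne : O.Nonempty := ⟨X.cor Φ, (hO _).2 ⟨1, X.N.one_mem, (one_smul _ _).symm⟩⟩
  have hc : (O.card : ℚ) ≠ 0 := by exact_mod_cast hne.card_pos.ne'
  have hq : ∀ (g : G) (q : ℚ) (x : S), g • (q • x) = q • (g • x) := fun g q x =>
    map_rat_smul (DistribSMul.toAddMonoidHom S g) q x
  refine ⟨(O.card : ℚ)⁻¹ • ∑ s ∈ O, s, ?_, ?_⟩
  · intro τ hτ
    rw [hq, Finset.smul_sum]
    congr 1
    refine Finset.sum_bij (fun s _ => τ • s) ?_ ?_ ?_ (fun _ _ => rfl)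
    · intro s hs
      obtain ⟨σ, hσ, rfl⟩ := (hO s).1 hs
      exact (hO _).2 ⟨τ * σ, X.N.mul_mem hτ hσ, by rw [mul_smul]⟩
    · intro s _ t _ h
      exact smul_left_cancel τ h
    · intro s hs
      obtain ⟨σ, hσ, rfl⟩ := (hO s).1 hs
      refine ⟨(τ⁻¹ * σ) • X.cor Φ, (hO _).2 ⟨_, X.N.mul_mem (X.N.inv_mem hτ) hσ, rfl⟩, ?_⟩
      rw [smul_smul]
      congr 1
      group
  · refine ⟨fun z => mean_apply X.onCH O hne _ _ ?_, fun t => mean_apply X.onT O hne _ _ ?_⟩
    · intro s hs
      obtain ⟨σ, hσ, rfl⟩ := (hO s).1 hs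
      exact (h1 σ hσ).1 z
    · intro s hs
      obtain ⟨σ, hσ, rfl⟩ := (hO s).1 hs
      exact (h1 σ hσ).2 t

theorem exists_prod [Algebra ℚ S] (X : Isogenous G S H TY TX CY CX D) :
    ∃ k : ℕ, ∀ l : List (D × ℤˣ), l.length = k → (∀ p ∈ l, X.Acts p.1 p.2) →
      (l.map X.dev).prod = 0 := by
  classical
  have : X.N.Normal := X.normal
  have : Finite (G ⧸ X.N) := X.finite
  let _ : MulSemiringAction (G ⧸ X.N) (fixed (S := S) X.N) := quotFixed X.N
  -- the fixed elements are an algebra over the rationals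
  have hq : ∀ (g : G) (q : ℚ) (x : S), g • (q • x) = q • (g • x) := fun g q x =>
    map_rat_smul (DistribSMul.toAddMonoidHom S g) q x
  let _ : Algebra ℚ (fixed (S := S) X.N) := ((algebraMap ℚ S).codRestrict (fixed (S := S) X.N)
    (fun q σ _ => by
      rw [Algebra.algebraMap_eq_smul_one, hq, smul_one])).toAlgebra' (by
      intro q x
      apply Subtype.ext
      exact Algebra.commutes q x.1)
  let fT : fixed (S := S) X.N →+* AddMonoid.End TY := X.onT.comp (fixed (S := S) X.N).subtype
  let fC : fixed (S := S) X.N →+* AddMonoid.End CY := X.onCH.comp (fixed (S := S) X.N).subtype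
  let I : Ideal (fixed (S := S) X.N) := RingHom.ker fC
  let R : Ideal (fixed (S := S) X.N) := RingHom.ker fT
  have : I.IsTwoSided := inferInstanceAs (RingHom.ker fC).IsTwoSided
  obtain ⟨n, hn⟩ := X.franchetta
  obtain ⟨k, hk⟩ := exists_prod_mem (G := G ⧸ X.N) (I := I) (R := R) (n := n)
    (fun g t ht => by
      induction g using QuotientGroup.induction_on with | H g =>
      exact X.galCH g t.1 ht)
    (fun g r hr => by
      induction g using QuotientGroup.induction_on with | H g =>
      exact X.galT g r.1 hr) (by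
      intro l hl h
      have h1 : X.onCH (l.map (fixed (S := S) X.N).subtype).prod = 0 :=
        hn (l.map (fixed (S := S) X.N).subtype) (by rw [List.length_map, hl]) (by
          intro x hx
          obtain ⟨y, hy, rfl⟩ := List.mem_map.1 hx
          obtain ⟨h1, h2⟩ := h y hy
          exact ⟨fun σ => congrArg Subtype.val (h2 (σ : G ⧸ X.N)), h1⟩)
      rw [← map_list_prod] at h1
      exact h1)
  refine ⟨k, fun l hl h => ?_⟩
  choose s hs using X.exists_rep
  let s' : D → fixed (S := S) X.N := fun Φ => ⟨s Φ, (hs Φ).1⟩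
  let r : D × ℤˣ → fixed (S := S) X.N := fun p => ((X.sgn p.1 * p.2 : ℤˣ) : ℤ) • s' p.1 - 1
  have hr : ∀ p, X.Acts p.1 p.2 → r p ∈ R := by
    intro p hp
    change fT (r p) = 0
    ext t
    obtain ⟨t, rfl⟩ := X.isoT.surjective t
    simp only [r, map_sub, map_zsmul, map_one]
    change ((X.sgn p.1 * p.2 : ℤˣ) : ℤ) • X.onT (s p.1) (X.isoT t) - X.isoT t = 0
    rw [(hs p.1).2.2, hp t, map_zsmul, smul_smul, smul_smul, sub_eq_zero]
    have h1 : (((X.sgn p.1 * p.2 : ℤˣ) : ℤ)) * ((X.sgn p.1 : ℤˣ) : ℤ) * (p.2 : ℤ) = 1 := by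
      rw [← Units.val_mul, ← Units.val_mul]
      have : X.sgn p.1 * p.2 * X.sgn p.1 * p.2 = 1 := by
        rw [mul_assoc (X.sgn p.1 * p.2), Int.units_mul_self]
      rw [this, Units.val_one]
    rw [h1, one_smul]
  have hdev : ∀ p z, fC (r p) (X.isoCH z) = X.isoCH (X.dev p z) := by
    intro p z
    simp only [r, map_sub, map_zsmul, map_one]
    change ((X.sgn p.1 * p.2 : ℤˣ) : ℤ) • X.onCH (s p.1) (X.isoCH z) - X.isoCH z = _
    rw [(hs p.1).2.1, dev_apply, map_sub, map_zsmul]
  have hprod : ∀ (l : List (D × ℤˣ)) (z : CX),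
      fC (l.map r).prod (X.isoCH z) = X.isoCH ((l.map X.dev).prod z) := by
    intro l
    induction l with
    | nil => intro z; simp
    | cons p l ih =>
      intro z
      rw [List.map_cons, List.prod_cons, List.map_cons, List.prod_cons, map_mul]
      change fC (r p) (fC (l.map r).prod (X.isoCH z)) = X.isoCH (X.dev p ((l.map X.dev).prod z))
      rw [ih, hdev]
  have h0 : fC (l.map r).prod = 0 := hk (l.map r) (by rw [List.length_map, hl]) (by
    intro x hx
    obtain ⟨p, hp, rfl⟩ := List.mem_map.1 hx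
    exact hr p (h p hp))
  ext z
  apply X.isoCH.injective
  rw [← hprod, h0]
  simp

/-- the filtration: the subgroup generated by the values of the products of `i` deviations -/
def fil (X : Isogenous G S H TY TX CY CX D) (i : ℕ) : AddSubgroup CX :=
  AddSubgroup.closure {z | ∃ l : List (D × ℤˣ), l.length = i ∧ (∀ p ∈ l, X.Acts p.1 p.2) ∧
    ∃ w, z = (l.map X.dev).prod w}

theorem fil_zero (X : Isogenous G S H TY TX CY CX D) : X.fil 0 = ⊤ := by
  rw [eq_top_iff]
  intro z _
  exact AddSubgroup.subset_closure ⟨[], rfl, by simp, z, by simp⟩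

theorem dev_mem (X : Isogenous G S H TY TX CY CX D) {p : D × ℤˣ} (hp : X.Acts p.1 p.2) {i : ℕ}
    {z : CX} (hz : z ∈ X.fil i) : X.dev p z ∈ X.fil (i + 1) := by
  unfold fil at hz
  induction hz using AddSubgroup.closure_induction with
  | mem z hz =>
    obtain ⟨l, hl, h, w, rfl⟩ := hz
    refine AddSubgroup.subset_closure ⟨p :: l, by simp [hl], ?_, w, ?_⟩
    · intro q hq
      rcases List.mem_cons.1 hq with rfl | hq
      · exact hp
      · exact h q hq
    · rw [List.map_cons, List.prod_cons]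
      rfl
  | zero => rw [map_zero]; exact AddSubgroup.zero_mem _
  | add a b _ _ ha hb => rw [map_add]; exact AddSubgroup.add_mem _ ha hb
  | neg a _ ha => rw [map_neg]; exact AddSubgroup.neg_mem _ ha

theorem fil_succ_le (X : Isogenous G S H TY TX CY CX D) (i : ℕ) : X.fil (i + 1) ≤ X.fil i := by
  unfold fil
  rw [AddSubgroup.closure_le]
  rintro z ⟨l, hl, h, w, rfl⟩
  obtain ⟨l', p, rfl⟩ : ∃ l' p, l = l' ++ [p] := by
    rcases List.eq_nil_or_concat l with h1 | ⟨l', p, h1⟩
    · rw [h1] at hl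
      simp at hl
    · exact ⟨l', p, by simpa using h1⟩
  refine AddSubgroup.subset_closure ⟨l', by simpa using hl, fun q hq => h q (by simp [hq]),
    X.dev p w, ?_⟩
  rw [List.map_append, List.prod_append]
  simp

theorem ch_eq (X : Isogenous G S H TY TX CY CX D) (Φ : D) (ε : ℤˣ) (z : CX) :
    X.ch Φ z - ((X.sgn Φ * ε : ℤˣ) : ℤ) • z = ((X.sgn Φ * ε : ℤˣ) : ℤ) • X.dev (Φ, ε) z := by
  rw [dev_apply]
  simp only
  rw [smul_sub, smul_smul, ← Units.val_mul, Int.units_mul_self, Units.val_one, one_smul]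

theorem exists_fil [Algebra ℚ S] (X : Isogenous G S H TY TX CY CX D) :
    ∃ (k : ℕ) (F : ℕ → AddSubgroup CX), F 0 = ⊤ ∧ F k = ⊥ ∧ Antitone F ∧
      ∀ (Φ : D) (ε : ℤˣ), X.Acts Φ ε → ∀ i, ∀ z ∈ F i, X.ch Φ z ∈ F i ∧
        X.ch Φ z - ((X.sgn Φ * ε : ℤˣ) : ℤ) • z ∈ F (i + 1) := by
  obtain ⟨k, hk⟩ := X.exists_prod
  refine ⟨k, X.fil, X.fil_zero, ?_, antitone_nat_of_succ_le X.fil_succ_le, ?_⟩
  · rw [eq_bot_iff]
    unfold fil
    rw [AddSubgroup.closure_le]
    rintro z ⟨l, hl, h, w, rfl⟩
    rw [hk l hl h]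
    simp
  · intro Φ ε hΦ i z hz
    have h1 : X.ch Φ z - ((X.sgn Φ * ε : ℤˣ) : ℤ) • z ∈ X.fil (i + 1) := by
      rw [X.ch_eq]
      exact AddSubgroup.zsmul_mem _ (X.dev_mem (p := (Φ, ε)) hΦ hz) _
    refine ⟨?_, h1⟩
    have h2 := AddSubgroup.add_mem _ (X.fil_succ_le i h1)
      (AddSubgroup.zsmul_mem _ hz ((X.sgn Φ * ε : ℤˣ) : ℤ))
    rwa [sub_add_cancel] at h2

/-- a unipotent endomorphism of finite order of a torsion free group is the identity -/
theorem eq_one_of_unipotent {A : Type*} [AddCommGroup A]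
    (hA : ∀ (j : ℤ) (z : A), j ≠ 0 → j • z = 0 → z = 0) {U : AddMonoid.End A} {k j : ℕ}
    (hU : (U - 1) ^ k = 0) (hj : j ≠ 0) (hUj : U ^ j = 1) : U = 1 := by
  obtain ⟨N, hN⟩ : ∃ N, N = U - 1 := ⟨_, rfl⟩
  rw [← hN] at hU
  have hU1 : U = 1 + N := by rw [hN]; abel
  -- the least exponent
  have key : ∀ i : ℕ, N ^ (i + 1) = 0 → N ^ 1 = 0 := by
    intro i
    induction i with
    | zero => exact fun h => h
    | succ i ih =>
      intro h
      apply ih
      -- `(1 + N) ^ j = 1 + j N + N ^ 2 * _`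
      have h1 : ∀ t : ℕ, ∃ Q : AddMonoid.End A, (1 + N) ^ t = 1 + (t : ℤ) • N + N ^ 2 * Q := by
        intro t
        induction t with
        | zero => exact ⟨0, by simp⟩
        | succ t iht =>
          obtain ⟨Q, hQ⟩ := iht
          refine ⟨Q * (1 + N) + (t : ℤ) • 1, ?_⟩
          have e1 : ((t : ℤ) • N) * N = N ^ 2 * ((t : ℤ) • (1 : AddMonoid.End A)) := by
            rw [smul_mul_assoc, mul_smul_comm, mul_one, pow_two]
          have e2 : (((t + 1 : ℕ) : ℤ)) • N = (t : ℤ) • N + N := by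
            rw [Nat.cast_add, Nat.cast_one, add_smul, one_smul]
          rw [pow_succ, hQ, e2, mul_add (1 + (t : ℤ) • N + N ^ 2 * Q) 1 N, mul_one, add_mul, add_mul,
            one_mul, e1, mul_add (N ^ 2), mul_add Q, mul_one, mul_add (N ^ 2) Q, mul_assoc]
          abel
      obtain ⟨Q, hQ⟩ := h1 j
      rw [← hU1, hUj] at hQ
      have h2 : (j : ℤ) • N + N ^ 2 * Q = 0 := by
        have : (1 : AddMonoid.End A) + ((j : ℤ) • N + N ^ 2 * Q) = 1 + 0 := by
          rw [add_zero, ← add_assoc]
          exact hQ.symm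
        exact add_left_cancel this
      have h3 : N ^ i * ((j : ℤ) • N + N ^ 2 * Q) = 0 := by rw [h2, mul_zero]
      rw [mul_add, ← mul_assoc, ← pow_add, h, zero_mul, add_zero, mul_smul_comm, ← pow_succ] at h3
      ext z
      have h4 := DFunLike.congr_fun h3 z
      exact hA j _ (by exact_mod_cast hj) h4
  have h5 : N ^ 1 = 0 := by
    rcases k with _ | k
    · rw [pow_zero] at hU
      rw [pow_one, ← one_mul N, hU, zero_mul]
    · exact key k hU
  rw [hU1, ← pow_one N, h5, add_zero]

theorem eq_of_finite_order [Algebra ℚ S] (X : Isogenous G S H TY TX CY CX D) {Φ : D}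
    {ε : ℤˣ} (hΦ : X.Acts Φ ε) {j : ℕ} (hj : j ≠ 0) (h : ∀ z, X.ch (Φ ^ j) z = z) (z : CX) :
    X.ch Φ z = ((X.sgn Φ * ε : ℤˣ) : ℤ) • z := by
  obtain ⟨k, hk⟩ := X.exists_prod
  obtain ⟨u, hu⟩ : ∃ u : ℤˣ, u = X.sgn Φ * ε := ⟨_, rfl⟩
  have h1 : ((u : ℤ) • X.ch Φ - 1) ^ k = 0 := by
    have := hk (List.replicate k (Φ, ε)) (by simp) (by
      intro p hp
      rw [List.eq_of_mem_replicate hp]
      exact hΦ)
    rw [List.map_replicate, List.prod_replicate] at this
    rw [hu]
    exact this
  have h2 : ((u : ℤ) • X.ch Φ) ^ (2 * j) = 1 := by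
    have h3 : X.ch Φ ^ (2 * j) = 1 := by
      rw [mul_comm, pow_mul, ← map_pow]
      ext z
      rw [pow_two]
      change X.ch (Φ ^ j) (X.ch (Φ ^ j) z) = z
      rw [h, h]
    rw [smul_pow, h3]
    have h4 : (u : ℤ) ^ (2 * j) = 1 := by
      rw [pow_mul, ← Units.val_pow_eq_pow_val, Int.units_sq, Units.val_one, one_pow]
    rw [h4, one_smul]
  have h5 := eq_one_of_unipotent X.torsion h1 (by omega) h2
  have h6 : (u : ℤ) • X.ch Φ z = z := DFunLike.congr_fun h5 z
  rw [← hu]
  conv_rhs => rw [← h6]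
  rw [smul_smul, ← Units.val_mul, Int.units_mul_self, Units.val_one, one_smul]

end Isogenous

end Pool.Agent.Lib.MP_240120_uni
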