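import Pool.Agent.Lib.MP_240120_uni.Basic
import Mathlib.GroupTheory.Nilpotent

set_option autoImplicit false

/-!
# The group of the operators of the autoequivalences is torsion free and nilpotent
-/

namespace Pool.Agent.Lib.MP_240120_uni

/-- a group of units of an endomorphism ring which acts trivially on the quotients of a finite filtration
is nilpotent -/
theorem nilpotent_of_fil {A : Type*} [AddCommGroup A] (U : Subgroup (AddMonoid.End A)ˣ) {k : ℕ}
    {F : ℕ → AddSubgroup A} (h0 : F 0 = ⊤) (hk : F k = ⊥) (hF : Antitone F)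
    (hU : ∀ u ∈ U, ∀ i, ∀ z ∈ F i, (u : AddMonoid.End A) z - z ∈ F (i + 1)) :
    Group.IsNilpotent U := by
  rw [Subgroup.nilpotent_iff_finite_descending_central_series]
  -- elements of `U` preserve the filtration
  have hst : ∀ u ∈ U, ∀ i, ∀ z ∈ F i, (u : AddMonoid.End A) z ∈ F i := by
    intro u hu i z hz
    have h := AddSubgroup.add_mem _ (hF (Nat.le_succ i) (hU u hu i z hz)) hz
    rwa [sub_add_cancel] at h
  have hinv : ∀ (u : (AddMonoid.End A)ˣ) (z : A), (u : AddMonoid.End A) ((u⁻¹ : (AddMonoid.End A)ˣ).1 z) = z :=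
    fun u z => by
      change ((u * u⁻¹ : (AddMonoid.End A)ˣ) : AddMonoid.End A) z = z
      rw [mul_inv_cancel]
      rfl
  let H : ℕ → Subgroup U := fun n =>
    { carrier := {u | ∀ i, ∀ z ∈ F i, (u.1 : AddMonoid.End A) z - z ∈ F (i + n + 1)}
      mul_mem' := by
        intro u v hu hv i z hz
        have h1 := hu i _ (hst v.1 v.2 i z hz)
        have h2 := hv i z hz
        have h3 := AddSubgroup.add_mem _ h1 h2
        rw [sub_add_sub_cancel] at h3
        exact h3
      one_mem' := by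
        intro i z _
        change z - z ∈ _
        rw [sub_self]
        exact AddSubgroup.zero_mem _
      inv_mem' := by
        intro u hu i z hz
        have h1 := hu i _ (hst (u⁻¹).1 (u⁻¹).2 i z hz)
        have h2 := AddSubgroup.neg_mem _ h1
        rw [neg_sub] at h2
        have h3 : (u.1 : AddMonoid.End A) (((u⁻¹ : U).1 : AddMonoid.End A) z) = z := hinv u.1 z
        rwa [h3] at h2 }
  have hH : ∀ n (u : U), u ∈ H n ↔ ∀ i, ∀ z ∈ F i, (u.1 : AddMonoid.End A) z - z ∈ F (i + n + 1) :=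
    fun n u => Iff.rfl
  refine ⟨k, H, ⟨?_, ?_⟩, ?_⟩
  · rw [eq_top_iff]
    intro u _
    exact (hH 0 u).2 (fun i z hz => hU u.1 u.2 i z hz)
  · intro x n hx g
    change x * g * x⁻¹ * g⁻¹ ∈ H (n + 1)
    rw [hH] at hx ⊢
    intro i z hz
    -- `[x, g] z - z = (x g - g x) w`, `w = x⁻¹ g⁻¹ z`
    obtain ⟨w, hw⟩ : ∃ w, w = (((x⁻¹ * g⁻¹ : U).1 : (AddMonoid.End A)ˣ) : AddMonoid.End A) z := ⟨_, rfl⟩
    have hwF : w ∈ F i := by
      rw [hw]
      exact hst _ (x⁻¹ * g⁻¹ : U).2 i z hz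
    have h1 : (((x * g * x⁻¹ * g⁻¹ : U).1 : (AddMonoid.End A)ˣ) : AddMonoid.End A) z =
        (x.1 : AddMonoid.End A) ((g.1 : AddMonoid.End A) w) := by
      rw [hw, mul_assoc (x * g)]
      rfl
    have h2 : z = (g.1 : AddMonoid.End A) ((x.1 : AddMonoid.End A) w) := by
      have e : (g.1 : AddMonoid.End A) ((x.1 : AddMonoid.End A) w) =
          (((g * x * (x⁻¹ * g⁻¹) : U).1 : (AddMonoid.End A)ˣ) : AddMonoid.End A) z := by
        rw [hw]
        rfl
      rw [e]
      have e2 : g * x * (x⁻¹ * g⁻¹) = 1 := by group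
      rw [e2]
      rfl
    obtain ⟨a, ha⟩ : ∃ a, a = (g.1 : AddMonoid.End A) w - w := ⟨_, rfl⟩
    obtain ⟨b, hb⟩ : ∃ b, b = (x.1 : AddMonoid.End A) w - w := ⟨_, rfl⟩
    have haF : a ∈ F (i + 1) := by
      rw [ha]
      exact hU g.1 g.2 i w hwF
    have hbF : b ∈ F (i + n + 1) := by
      rw [hb]
      exact hx i w hwF
    have h3 : (x.1 : AddMonoid.End A) ((g.1 : AddMonoid.End A) w) - (g.1 : AddMonoid.End A) ((x.1 : AddMonoid.End A) w) =
        ((x.1 : AddMonoid.End A) a - a) - ((g.1 : AddMonoid.End A) b - b) := by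
      rw [ha, hb, map_sub, map_sub]
      abel
    have h4 : (((x * g * x⁻¹ * g⁻¹ : U).1 : (AddMonoid.End A)ˣ) : AddMonoid.End A) z - z =
        ((x.1 : AddMonoid.End A) a - a) - ((g.1 : AddMonoid.End A) b - b) := by
      rw [h1, ← h3, ← h2]
    rw [h4]
    refine AddSubgroup.sub_mem _ ?_ ?_
    · have h5 := hx (i + 1) a haF
      have e : i + 1 + n + 1 = i + (n + 1) + 1 := by omega
      rwa [e] at h5
    · have h5 := hU g.1 g.2 (i + n + 1) b hbF
      have e : i + n + 1 + 1 = i + (n + 1) + 1 := by omega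
      rwa [e] at h5
  · rw [eq_bot_iff]
    intro u hu
    rw [hH] at hu
    rw [Subgroup.mem_bot]
    apply Subtype.ext
    apply Units.ext
    ext z
    have h1 := hu 0 z (by rw [h0]; trivial)
    have h2 := hF (by omega : k ≤ 0 + k + 1) h1
    rw [hk, AddSubgroup.mem_bot, sub_eq_zero] at h2
    exact h2

namespace Isogenous

variable {G S H TY TX CY CX D : Type*} [Group G] [Ring S] [MulSemiringAction G S]
    [AddCommGroup H] [AddCommGroup TY] [AddCommGroup TX] [AddCommGroup CY] [AddCommGroup CX]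
    [Group D]

/-- the pairs `(Φ, ε)` such that `Φ` acts on the transcendental lattice as `ε` -/
def pairs (X : Isogenous G S H TY TX CY CX D) : Subgroup (D × ℤˣ) where
  carrier := {p | X.Acts p.1 p.2}
  mul_mem' := by
    intro p q hp hq t
    change X.act (p.1 * q.1) t = ((p.2 * q.2 : ℤˣ) : ℤ) • t
    rw [map_mul]
    change X.act p.1 (X.act q.1 t) = _
    rw [hq t, map_zsmul, hp t, smul_smul, mul_comm (q.2 : ℤ), Units.val_mul]
  one_mem' := by
    intro t
    change X.act 1 t = ((1 : ℤˣ) : ℤ) • t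
    rw [map_one, Units.val_one, one_smul]
    rfl
  inv_mem' := by
    intro p hp t
    change X.act p.1⁻¹ t = ((p.2⁻¹ : ℤˣ) : ℤ) • t
    have h1 : X.act p.1⁻¹ (X.act p.1 t) = t := by
      change (X.act p.1⁻¹ * X.act p.1) t = t
      rw [← map_mul, inv_mul_cancel, map_one]
      rfl
    rw [hp t, map_zsmul] at h1
    conv_rhs => rw [← h1]
    rw [smul_smul, ← Units.val_mul, inv_mul_cancel, Units.val_one, one_smul]

/-- the operator `sgn(Φ) ε Φ^CH` on `CH_0(X)_hom` -/
def op (X : Isogenous G S H TY TX CY CX D) : D × ℤˣ →* AddMonoid.End CX where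
  toFun p := ((X.sgn p.1 * p.2 : ℤˣ) : ℤ) • X.ch p.1
  map_one' := by
    change ((X.sgn 1 * 1 : ℤˣ) : ℤ) • X.ch 1 = 1
    rw [map_one, map_one, mul_one, Units.val_one, one_smul]
  map_mul' := by
    intro p q
    change ((X.sgn (p.1 * q.1) * (p.2 * q.2) : ℤˣ) : ℤ) • X.ch (p.1 * q.1) = _
    rw [map_mul, map_mul, smul_mul_smul_comm, ← Units.val_mul]
    congr 2
    exact mul_mul_mul_comm _ _ _ _

/-- the group of the operators `sgn(Φ) ε Φ^CH` on `CH_0(X)_hom`, `Φ` an (anti-)autoequivalence which acts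
on the transcendental lattice as `ε` -/
def ops (X : Isogenous G S H TY TX CY CX D) : Subgroup (AddMonoid.End CX)ˣ :=
  X.pairs.map X.op.toHomUnits

theorem mem_ops (X : Isogenous G S H TY TX CY CX D) (u : (AddMonoid.End CX)ˣ) :
    u ∈ X.ops ↔ ∃ (Φ : D) (ε : ℤˣ), X.Acts Φ ε ∧
      ∀ z, (u : AddMonoid.End CX) z = ((X.sgn Φ * ε : ℤˣ) : ℤ) • X.ch Φ z := by
  constructor
  · rintro ⟨p, hp, rfl⟩
    exact ⟨p.1, p.2, hp, fun z => rfl⟩
  · rintro ⟨Φ, ε, h, hu⟩
    refine ⟨(Φ, ε), h, ?_⟩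
    apply Units.ext
    ext z
    exact (hu z).symm

theorem ops_nilpotent [Algebra ℚ S] (X : Isogenous G S H TY TX CY CX D) :
    Group.IsNilpotent X.ops := by
  obtain ⟨k, F, h0, hk, hF, h⟩ := X.exists_fil
  refine nilpotent_of_fil X.ops h0 hk hF ?_
  intro u hu i z hz
  obtain ⟨Φ, ε, hΦ, hu⟩ := (X.mem_ops u).1 hu
  rw [hu]
  have h1 := (h Φ ε hΦ i z hz).2
  have h2 := AddSubgroup.zsmul_mem _ h1 ((X.sgn Φ * ε : ℤˣ) : ℤ)
  rwa [smul_sub, smul_smul, ← Units.val_mul, Int.units_mul_self, Units.val_one, one_smul] at h2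

theorem ops_torsionfree [Algebra ℚ S] (X : Isogenous G S H TY TX CY CX D) {u : (AddMonoid.End CX)ˣ}
    (hu : u ∈ X.ops) {j : ℕ} (hj : j ≠ 0) (h : u ^ j = 1) : u = 1 := by
  obtain ⟨k, hk⟩ := X.exists_prod
  obtain ⟨p, hp, rfl⟩ := hu
  apply Units.ext
  refine eq_one_of_unipotent X.torsion (U := (X.op.toHomUnits p : AddMonoid.End CX)) (k := k) (j := j)
    ?_ hj ?_
  · have := hk (List.replicate k p) (by simp) (by
      intro q hq
      rw [List.eq_of_mem_replicate hq]
      exact hp)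
    rw [List.map_replicate, List.prod_replicate] at this
    exact this
  · rw [← Units.val_pow_eq_pow_val, h, Units.val_one]

end Isogenous

end Pool.Agent.Lib.MP_240120_uni
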